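import Pool.Agent.Y718.FQ.Stm

/-!
# A polynomial which vanishes at infinitely many points of the generic line (S_LINE),
project FQ of helper718
-/

set_option autoImplicit false

open MvPolynomial Pool.Agent.Y718 Pool.Agent.Y718.SF Pool.Agent.Y720.MZ

namespace Pool.Agent.Y67.FQ

open Pool.Agent.Y718.FQ

/-- the value of a polynomial on the double cover over the generic line -/
lemma exists_ab {K : Type} [Field K] {n : ℕ} (g : Polynomial (MvPolynomial (Fin n) K))
    (z0 : Fin n → K) (h : MvPolynomial (Fin n ⊕ Unit) K) :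
    ∃ α β : Polynomial (MvPolynomial (Fin n) K), ∀ (R : Type) [CommRing R]
      (ψ : Polynomial (MvPolynomial (Fin n) K) →+* R) (W : R), W ^ 2 = ψ g →
      h.eval₂ (ψ.comp (Polynomial.C.comp MvPolynomial.C))
        (Sum.elim (fun j => ψ (Polynomial.C (MvPolynomial.C (z0 j)) +
          Polynomial.X * Polynomial.C (MvPolynomial.X j))) fun _ => W) = ψ α + ψ β * W := by
  induction h using MvPolynomial.induction_on with
  | C c => exact ⟨Polynomial.C (MvPolynomial.C c), 0, fun R _ ψ W hW => by simp⟩
  | add p q hp hq =>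
    obtain ⟨a, b, h1⟩ := hp
    obtain ⟨a', b', h2⟩ := hq
    refine ⟨a + a', b + b', fun R _ ψ W hW => ?_⟩
    rw [eval₂_add, h1 R ψ W hW, h2 R ψ W hW, map_add ψ a a', map_add ψ b b']
    ring
  | mul_X p i hp =>
    obtain ⟨a, b, h1⟩ := hp
    rcases i with j | j
    · refine ⟨a * (Polynomial.C (MvPolynomial.C (z0 j)) +
          Polynomial.X * Polynomial.C (MvPolynomial.X j)), b * (Polynomial.C (MvPolynomial.C (z0 j)) +
          Polynomial.X * Polynomial.C (MvPolynomial.X j)), fun R _ ψ W hW => ?_⟩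
      rw [eval₂_mul, h1 R ψ W hW, eval₂_X, Sum.elim_inl, map_mul ψ a, map_mul ψ b]
      ring
    · refine ⟨b * g, a, fun R _ ψ W hW => ?_⟩
      rw [eval₂_mul, h1 R ψ W hW, eval₂_X, Sum.elim_inr, map_mul ψ b g, ← hW]
      ring

/-- a quartic polynomial with nonzero discriminant is not a square -/
lemma not_sq {F : Type} [Field F] {G c : Polynomial F} (hG : G.natDegree ≤ 4)
    (hD : Pool.Agent.Y718.X.Db G ≠ 0) : G ≠ c ^ 2 := by
  have h1 : G = qpol (G.coeff 0) (G.coeff 1) (G.coeff 2) (G.coeff 3) (G.coeff 4) := by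
    conv_lhs => rw [G.as_sum_range_C_mul_X_pow' (n := 5) (by omega)]
    simp [Finset.sum_range_succ, qpol]
  rw [h1]
  exact qpol_not_sq hD c

/-- **FQ-LINE.** -/
theorem line : S_LINE := by
  intro K _ _ n f hf z0 hV s w hs hw h hh z y hy
  classical
  set ι : MvPolynomial (Fin n) K →+* FractionRing (MvPolynomial (Fin n) K) :=
    algebraMap (MvPolynomial (Fin n) K) (FractionRing (MvPolynomial (Fin n) K)) with hι
  have hinj : Function.Injective ι := IsFractionRing.injective _ _
  obtain ⟨α, β, hab⟩ := exists_ab (Pool.Agent.Y718.CL.g0 f z0) z0 h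
  -- at the points
  have key : ∀ i, (α.map ι).eval (s i) + (β.map ι).eval (s i) * w i = 0 := by
    intro i
    have h1 := hab _ (Polynomial.eval₂RingHom ι (s i)) (w i) (by
      rw [hw i, Polynomial.eval_map]
      rfl)
    rw [Polynomial.coe_eval₂RingHom] at h1
    rw [Polynomial.eval_map, Polynomial.eval_map, ← h1, ← hh i, aeval_def]
    have e1 : ((Polynomial.eval₂RingHom ι (s i)).comp
        (Polynomial.C.comp (MvPolynomial.C : K →+* MvPolynomial (Fin n) K))) =
        algebraMap K (FractionRing (MvPolynomial (Fin n) K)) := by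
      ext c
      rw [RingHom.comp_apply, RingHom.comp_apply, Polynomial.coe_eval₂RingHom,
        Polynomial.eval₂_C, IsScalarTower.algebraMap_apply K (MvPolynomial (Fin n) K)
        (FractionRing (MvPolynomial (Fin n) K)), MvPolynomial.algebraMap_eq]
    rw [e1]
    congr 1
    funext j
    rcases j with j | j
    · simp only [Sum.elim_inl, Polynomial.eval₂_add, Polynomial.eval₂_C, Polynomial.eval₂_mul,
        Polynomial.eval₂_X]
    · rfl
  have hroot : ((α ^ 2 - β ^ 2 * Pool.Agent.Y718.CL.g0 f z0).map ι) = 0 := by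
    apply Polynomial.eq_zero_of_infinite_isRoot
    refine (Set.infinite_range_of_injective hs).mono ?_
    rintro _ ⟨i, rfl⟩
    rw [Set.mem_ofPred_eq, Polynomial.IsRoot.def, Polynomial.map_sub, Polynomial.map_mul,
      Polynomial.map_pow, Polynomial.map_pow, Polynomial.eval_sub, Polynomial.eval_mul,
      Polynomial.eval_pow, Polynomial.eval_pow, ← hw i]
    linear_combination ((α.map ι).eval (s i) - (β.map ι).eval (s i) * w i) * key i
  rw [Polynomial.map_sub, Polynomial.map_mul, Polynomial.map_pow, Polynomial.map_pow,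
    sub_eq_zero] at hroot
  have hdeg : ((Pool.Agent.Y718.CL.g0 f z0).map ι).natDegree ≤ 4 := by
    refine Polynomial.natDegree_map_le.trans ?_
    refine (lg_natDegree _ _ _).trans ?_
    exact (Finset.sup_mono (MvPolynomial.support_map_subset _ _)).trans hf
  have hD : Pool.Agent.Y718.X.Db ((Pool.Agent.Y718.CL.g0 f z0).map ι) ≠ 0 := by
    rw [Pool.Agent.Y718.X.Db_map]
    intro h0
    obtain ⟨V, hV⟩ := hV
    apply hV
    rw [← Pool.Agent.Y718.CL.Dp_eval, (map_eq_zero_iff ι hinj).mp h0, map_zero]
  have hβ : β.map ι = 0 := by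
    by_contra hb
    have h1 : (β.map ι) ^ 2 ∣ (α.map ι) ^ 2 := ⟨_, hroot⟩
    obtain ⟨c, hc⟩ := (UniqueFactorizationMonoid.pow_dvd_pow_iff_dvd (two_ne_zero)).mp h1
    apply not_sq (c := c) hdeg hD
    rw [hc, mul_pow] at hroot
    exact (mul_left_cancel₀ (pow_ne_zero 2 hb) hroot).symm
  have hα : α.map ι = 0 := by
    rw [hβ] at hroot
    have : (α.map ι) ^ 2 = 0 := by
      rw [hroot]
      ring
    exact pow_eq_zero_iff (two_ne_zero) |>.mp this
  have hβ0 : β = 0 := Polynomial.map_injective ι hinj (by rw [hβ, Polynomial.map_zero])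
  have hα0 : α = 0 := Polynomial.map_injective ι hinj (by rw [hα, Polynomial.map_zero])
  -- the point
  set V : Fin n → K := z - z0 with hVd
  have hzV : z0 + (1 : K) • V = z := by
    rw [one_smul, hVd]
    abel
  have h2 := hab K ((Polynomial.evalRingHom 1).comp (Polynomial.mapRingHom (MvPolynomial.eval V)))
    y (by
      rw [RingHom.comp_apply, Polynomial.coe_mapRingHom, Polynomial.coe_evalRingHom,
        Pool.Agent.Y718.CL.g0_eval, lg_eval, hzV, hy])
  rw [hα0, hβ0, map_zero, zero_mul, add_zero] at h2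
  rw [← h2, MvPolynomial.eval, MvPolynomial.coe_eval₂Hom]
  have e1 : (((Polynomial.evalRingHom (1 : K)).comp
      (Polynomial.mapRingHom (MvPolynomial.eval V))).comp
        (Polynomial.C.comp (MvPolynomial.C : K →+* MvPolynomial (Fin n) K))) = RingHom.id K := by
    ext c
    simp
  rw [e1]
  congr 1
  funext j
  rcases j with j | j
  · simp [hVd]
  · rfl

end Pool.Agent.Y67.FQ
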